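import Pool.Agent.W558.WT.Stms
import Pool.Agent.W498.Tor.Tor

/-! # Project WT: transport of a tower normal form along an isomorphism -/

set_option autoImplicit false
set_option linter.unusedVariables false
set_option linter.unusedSectionVars false

universe u

open Polynomial Pool.Agent.W558 Pool.Agent.W498.Tor

namespace Pool.Agent.W906.WT.Iso

section

variable {k L K : Type u} [Field k] [Field L] [Field K] [Algebra k L] [Algebra k K]
  [Algebra L K] [IsScalarTower k L K] {T I : Type} (M : LM (⊥ : Subalgebra k L) ⊤ T I)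

/-- Transport of logarithmic tangent vectors. -/
lemma exists_lt (t : T) {κ : Type u} [Field κ] [Algebra k κ]
    (φ : (mapLM (K := K) M).A t →ₐ[k] κ)
    (v : LT (φ.comp (eqv (K := K) (M.A t)).toAlgHom) (M.x t)) :
    ∃ v' : LT φ ((mapLM (K := K) M).x t), v'.e = v.e ∧
      ∀ (b : L) (hb : b ∈ M.A t) (hb' : em k L K b ∈ (mapLM (K := K) M).A t),
        v'.D.D ⟨em k L K b, hb'⟩ = v.D.D ⟨b, hb⟩ := by
  let e := eqv (K := K) (M.A t)
  have h0 : ∀ (b : L) (hb : b ∈ M.A t) (hb' : em k L K b ∈ (M.A t).map (em k L K)),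
      e ⟨b, hb⟩ = ⟨em k L K b, hb'⟩ := fun b hb hb' => Subtype.ext (coe_eqv (M.A t) _)
  have h3 : ∀ (b : L) (hb : b ∈ M.A t) (hb' : em k L K b ∈ (M.A t).map (em k L K)),
      e.symm ⟨em k L K b, hb'⟩ = ⟨b, hb⟩ := by
    intro b hb hb'
    rw [← h0 b hb hb', e.symm_apply_apply]
  have h2 : ∀ b, ((φ.comp e.toAlgHom).comp e.symm.toAlgHom) b = φ b := by
    intro b
    change φ (e (e.symm b)) = φ b
    rw [e.apply_symm_apply]
  have h4 : ∀ (b : L) (hb : b ∈ M.A t) (hb' : em k L K b ∈ (M.A t).map (em k L K)),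
      ((v.D.restr e.symm.toAlgHom).cast h2).D ⟨em k L K b, hb'⟩ = v.D.D ⟨b, hb⟩ := by
    intro b hb hb'
    rw [TV.cast_D, TV.restr_D]
    change v.D.D (e.symm ⟨em k L K b, hb'⟩) = _
    rw [h3 b hb hb']
  refine ⟨⟨(v.D.restr e.symm.toAlgHom).cast h2, v.e, ?_⟩, rfl, h4⟩
  intro i hi
  have h5 := h4 (M.x t i) (M.xA t i) hi
  change ((v.D.restr e.symm.toAlgHom).cast h2).D ⟨em k L K (M.x t i), hi⟩ =
    φ ⟨em k L K (M.x t i), hi⟩ * v.e i
  rw [h5, v.hx i (M.xA t i)]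
  congr 1

end

theorem main : WT_iso.{u} := by
  intro p _ k L K _ _ _ _ _ _ _ _ _ hsurj T I ι G _ _ _ M f n a h Λ R g Γ hT hFn hFrc
  classical
  have hinj : Function.Injective (em k L K) := em_inj
  have hmem : ∀ t (x : L), em k L K x ∈ (M.A t).map (em k L K) ↔ x ∈ M.A t := by
    intro t x
    constructor
    · rintro ⟨y, hy, he⟩
      rw [← hinj he]
      exact hy
    · intro hx
      exact ⟨x, hx, rfl⟩
  have hinvm : ∀ t i, ((mapLM (K := K) M).x t i)⁻¹ ∈ (mapLM (K := K) M).A t ↔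
      (M.x t i)⁻¹ ∈ M.A t := by
    intro t i
    change (em k L K (M.x t i))⁻¹ ∈ (M.A t).map (em k L K) ↔ _
    rw [← map_inv₀, hmem]
  have hmon : ∀ t (m : I → ℤ), ∏ i, (mapLM (K := K) M).x t i ^ m i =
      em k L K (∏ i, M.x t i ^ m i) := by
    intro t m
    rw [map_prod]
    refine Finset.prod_congr rfl fun i _ => ?_
    rw [map_zpow₀]
    rfl
  have hzc : ∀ c, zc p K c = algebraMap L K (zc p L c) := by
    intro c
    exact RingHom.congr_fun (RingHom.ext_zmod (zc p K) ((algebraMap L K).comp (zc p L))) c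
  refine ⟨mapLM (K := K) M, ⟨hT.n0, ?_, ?_, ?_, ?_, ?_, hT.rep, ?_⟩, ?_, ?_⟩
  · intro t j
    exact ⟨h t j, hT.hA t j, rfl⟩
  · intro t j
    rw [hmon]
    change em k L K (f j) = em k L K (a t j) ^ p - em k L K (a t j) + em k L K _ * em k L K (h t j)
    rw [hT.eq t j, map_add, map_sub, map_pow, map_mul]
  · intro t j l
    rcases hT.cmp t j l with h1 | h1
    · exact Or.inl fun i => (h1 i).imp id (hinvm t i).2
    · exact Or.inr fun i => (h1 i).imp id (hinvm t i).2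
  · intro μ hμ
    obtain ⟨w, hw⟩ := hT.wl μ hμ
    refine ⟨algebraMap L K w, ?_⟩
    rw [← map_pow, ← map_sub, hw, map_sum]
    refine Finset.sum_congr rfl fun j _ => ?_
    rw [map_mul, hzc]
  · intro t μ hμ h0
    obtain ⟨j, hj, hj0, hl⟩ := hT.ech t μ hμ h0
    exact ⟨j, hj, hj0, fun l hl0 i => (hl l hl0 i).imp id (hinvm t i).2⟩
  · intro t κ _ _ φ j hj ⟨i, hi, hφ⟩
    obtain ⟨v, hv, hv'⟩ := hT.ln t κ (φ.comp (eqv (K := K) (M.A t)).toAlgHom) j hj ⟨i, hi, hφ⟩
    obtain ⟨v', he, hD⟩ := exists_lt M t φ v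
    have hom : ∀ l (h1 : algebraMap L K (h t l) ∈ (mapLM (K := K) M).A t),
        om v' (n l) h1 = om v (n l) (hT.hA t l) := by
      intro l h1
      unfold om
      have h2 := hD (h t l) (hT.hA t l) h1
      change v'.D.D ⟨em k L K (h t l), h1⟩ + φ ⟨em k L K (h t l), h1⟩ * _ = _
      rw [h2, he]
      congr 1
    refine ⟨v', ?_, ?_⟩
    · rw [hom]
      exact hv
    · intro l hl hlj
      rw [hom]
      exact hv' l hl hlj
  · intro b t
    obtain ⟨w, hw0, hw, hw', h1⟩ := hFn b t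
    refine ⟨em k L K w, (map_ne_zero_iff _ hinj).2 hw0, ⟨w, hw, rfl⟩,
      ⟨w⁻¹, hw', map_inv₀ (em k L K) w⟩, ?_⟩
    rw [hmon]
    change em k L K (g b) = _
    rw [h1, map_mul]
  · intro t x
    obtain ⟨l, rfl⟩ := hsurj x
    obtain ⟨c, hc, d, hd, hd0, h1⟩ := hFrc t l
    refine ⟨em k L K c, ⟨c, hc, rfl⟩, em k L K d, ⟨d, hd, rfl⟩,
      (map_ne_zero_iff _ hinj).2 hd0, ?_⟩
    change em k L K l = _
    rw [h1, map_mul, map_inv₀]

end Pool.Agent.W906.WT.Iso
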